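import Pool.Agent.P.MP_6472e5_gt.Main

/-! The ramified double cover of a non-orientable non-collapsed RCD space without boundary is an
RCD space (dimension `n = m + 2`). -/

set_option autoImplicit false

namespace Pool.Agent.Results.MP_6472e5_gt.Cover

open MeasureTheory RC

theorem result (m : ℕ) (X Y : Type) [MetricSpace X] [CompleteSpace X] [SecondCountableTopology X]
    [MeasurableSpace X] [BorelSpace X] [MetricSpace Y] [CompleteSpace Y]
    [SecondCountableTopology Y] [MeasurableSpace Y] [BorelSpace Y] (Γ : Y → Y) (π : Y → X)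
    (hX : IsRCD (-((m : ℝ) + 1)) ((m : ℝ) + 2)
      (Measure.euclideanHausdorffMeasure (m + 2) : Measure X))
    (hb : bdry X m = ∅) (hn : NonOrientable X m) (hc : IsRamCover m Γ π) :
    IsRCD (-((m : ℝ) + 1)) ((m : ℝ) + 2)
      (Measure.euclideanHausdorffMeasure (m + 2) : Measure Y) :=
  main m X Y Γ π hX hb hn hc

end Pool.Agent.Results.MP_6472e5_gt.Cover
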